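import Pool.Agent.H94.PtakExpl

namespace Pool.Agent.Results.MP_c470bc_an.Determine

open Polynomial Pool.Agent.H94.PtakD

theorem result (n : ℕ) (hn : 1 ≤ n) (p : ℝ) (hp0 : 0 < p) (hp1 : p < 1) (ψ : ℂ → ℂ)
    (hψ : AnalyticOnNhd ℂ ψ (Metric.closedBall 0 p)) :
    (∀ a : ℂ, ‖a‖ = p → (X - C a) ^ n ∈ FF p ∧ modelT n a ∈ AA n ((X - C a) ^ n) ∧
      CC n ((X - C a) ^ n) ψ = ‖funCalc ψ (modelT n a)‖) ∧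
    (∃ a : ℂ, ‖a‖ = p ∧ ∀ b : ℂ, ‖b‖ = p → ‖funCalc ψ (modelT n b)‖ ≤ ‖funCalc ψ (modelT n a)‖) ∧
    (∀ a : ℂ, ‖a‖ = p →
      (∀ b : ℂ, ‖b‖ = p → ‖funCalc ψ (modelT n b)‖ ≤ ‖funCalc ψ (modelT n a)‖) →
      ∀ φ ∈ FF p, CC n φ ψ ≤ CC n ((X - C a) ^ n) ψ ∧ ∀ T ∈ AA n φ,
        Summable (fun k : ℕ => (iteratedDeriv k ψ 0 / (k.factorial : ℂ)) • T ^ k) ∧
        ‖funCalc ψ T‖ ≤ ‖funCalc ψ (modelT n a)‖) ∧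
    (∀ m : ℕ, ψ = (fun z => z ^ m) → ∀ φ ∈ FF p, CC n φ ψ ≤ CC n ((X - C (p : ℂ)) ^ n) ψ) :=
  Pool.Agent.H94.Ptak.determine hn hp0 hp1 hψ

end Pool.Agent.Results.MP_c470bc_an.Determine
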